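import Pool.Agent.Lib.MP_83af8b_an.Proof

/-!
# Baire category of Khintchin product sequences of 2 and 3

Definitions: `Pool.Agent.Lib.MP_83af8b_an.Defs`.  Proof: `Pool.Agent.Lib.MP_83af8b_an.Proof`.
-/

open Pool.Agent.Lib.MP_83af8b_an

namespace Pool.Agent.Results.MP_83af8b_an.Meagre

/-- The set `K_{2,3}` of all `ω ∈ {2,3}^ℕ` whose product sequence is a Khintchin sequence is of first
Baire category (meagre) in `{2,3}^ℕ`. -/
theorem result : IsMeagre K23 :=
  main

end Pool.Agent.Results.MP_83af8b_an.Meagre
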